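import Pool.Agent.W751.RV.Stm

/-! RV-LC (owner helper751): the critical values from the disc of radius `ρ > 1` are large. -/

set_option autoImplicit false

open Polynomial Filter Topology MeasureTheory Metric

namespace Pool.Agent.W216.RV

open Pool.Agent.W751.CD Pool.Agent.W751.CV Pool.Agent.W751.RV

lemma ZN_pos {ρ : ℝ} (hρ : 0 < ρ) (N : ℕ) : 0 < ZN ρ N := by
  unfold ZN hk
  have := Real.pi_pos
  refine mul_pos (by positivity) (Finset.prod_pos fun k _ => by positivity)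

/-- polynomial growth against exponential growth -/
lemma exists_B {g : ℝ} (hg : 1 < g) : ∃ B : ℝ, 0 < B ∧ ∀ N : ℕ, ((N : ℝ) + 1) ^ 2 ≤ B * g ^ N := by
  obtain ⟨b, hb⟩ := (tendsto_pow_const_div_const_pow_of_one_lt 2 hg).bddAbove_range
  refine ⟨max b 1 * g, by positivity, ?_⟩
  intro N
  have h1 : ((N + 1 : ℕ) : ℝ) ^ 2 / g ^ (N + 1) ≤ b := hb ⟨N + 1, rfl⟩
  rw [div_le_iff₀ (by positivity)] at h1
  push_cast at h1
  calc ((N : ℝ) + 1) ^ 2 ≤ b * g ^ (N + 1) := h1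
    _ ≤ max b 1 * g ^ (N + 1) := by
      apply mul_le_mul_of_nonneg_right (le_max_left _ _) (by positivity)
    _ = max b 1 * g * g ^ N := by ring

/-- measurability of the area -/
lemma meas_area (N : ℕ) (r R : ℝ) : Measurable (fun z : Fin N → ℂ =>
    volume {w : ℂ | ‖w‖ ≤ r ∧ ‖(P z).eval w‖ ≤ R}) := by
  have hcl : IsClosed {x : (Fin N → ℂ) × ℂ | ‖x.2‖ ≤ r ∧ ‖(P x.1).eval x.2‖ ≤ R} := by
    have h1 : Continuous (fun x : (Fin N → ℂ) × ℂ => (P x.1).eval x.2) := by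
      unfold P
      simp only [eval_prod, eval_sub, eval_X, eval_C]
      fun_prop
    exact (isClosed_le (continuous_snd.norm) continuous_const).inter
      (isClosed_le h1.norm continuous_const)
  exact measurable_measure_prodMk_left hcl.measurableSet

theorem lc : S_LC := by
  intro hZN hCB hAREA hSQ hUQ hSF ρ σ κ hρ hσ hρσ hκ
  have hρ0 : 0 < ρ := by linarith
  -- the eighth root
  obtain ⟨g, hg1, hg8⟩ : ∃ g : ℝ, 1 < g ∧ g ^ 8 = ρ := by
    refine ⟨√(√(√ρ)), ?_, ?_⟩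
    · rw [Real.lt_sqrt (by norm_num), one_pow, Real.lt_sqrt (by norm_num), one_pow,
        Real.lt_sqrt (by norm_num), one_pow]
      exact hρ
    · have e : ∀ x : ℝ, x ^ 8 = ((x ^ 2) ^ 2) ^ 2 := fun x => by ring
      rw [e, Real.sq_sqrt (by positivity), Real.sq_sqrt (by positivity),
        Real.sq_sqrt (by positivity)]
  have hg0 : 0 < g := by linarith
  -- the radius
  obtain ⟨δ, hδ0, hδ1, hδ2, hδ3⟩ : ∃ δ : ℝ, 0 < δ ∧ δ ≤ 1 ∧ ρ + δ ≤ ρ * g ∧ (ρ + δ) * σ < 1 := by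
    have h1 : 0 < ρ * (g - 1) := by
      apply mul_pos hρ0
      linarith
    have h2 : 0 < (1 - ρ * σ) / (2 * σ) := by
      apply div_pos _ (by positivity)
      linarith
    refine ⟨min 1 (min (ρ * (g - 1)) ((1 - ρ * σ) / (2 * σ))),
      lt_min one_pos (lt_min h1 h2), min_le_left _ _, ?_, ?_⟩
    · have : min 1 (min (ρ * (g - 1)) ((1 - ρ * σ) / (2 * σ))) ≤ ρ * (g - 1) :=
        (min_le_right _ _).trans (min_le_left _ _)
      linarith
    · have h3 : min 1 (min (ρ * (g - 1)) ((1 - ρ * σ) / (2 * σ))) ≤ (1 - ρ * σ) / (2 * σ) :=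
        (min_le_right _ _).trans (min_le_right _ _)
      have h4 : (1 - ρ * σ) / (2 * σ) * σ = (1 - ρ * σ) / 2 := by
        field_simp
      have h5 := mul_le_mul_of_nonneg_right h3 hσ.le
      rw [h4] at h5
      nlinarith
  obtain ⟨r, hr⟩ : ∃ r, r = ρ + δ := ⟨_, rfl⟩
  have hr0 : 0 < r := by linarith
  obtain ⟨K1, hK1, hSQ'⟩ := hSQ σ r hσ hr0 (by rw [hr]; exact hδ3)
  have hUQ' := hUQ σ r hσ hr0 (by rw [hr]; exact hδ3.le)
  obtain ⟨Ca, hCa, hAREA'⟩ := hAREA ρ hρ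
  obtain ⟨B, hB, hB'⟩ := exists_B hg1
  obtain ⟨n0, hn0⟩ := pow_unbounded_of_one_lt κ hg1
  have hpi := Real.pi_pos
  obtain ⟨C2, hC2⟩ : ∃ C2, C2 = 8 * κ * Ca / (Real.pi * δ ^ 2) := ⟨_, rfl⟩
  have hC20 : 0 < C2 := by rw [hC2]; positivity
  refine ⟨(K1 + 2 + C2) * B + g ^ (max 2 n0), g⁻¹, by positivity, by positivity,
    inv_lt_one_of_one_lt₀ hg1, ?_⟩
  intro N hN
  have hfin1 : IsFiniteMeasure (mu ρ N) := ⟨by rw [(hZN ρ N hρ0).1]; exact ENNReal.ofReal_lt_top⟩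
  have hfin2 : IsFiniteMeasure (mu σ N) := ⟨by rw [(hZN σ N hσ).1]; exact ENNReal.ofReal_lt_top⟩
  have hZ1 := ZN_pos hρ0 N
  have hZ2 := ZN_pos hσ N
  obtain ⟨Z, hZ⟩ : ∃ Z, Z = ZN ρ N * ZN σ N := ⟨_, rfl⟩
  have hZ0 : 0 < Z := by rw [hZ]; positivity
  have hmm : ∀ (s t : Set (Fin N → ℂ)), mm ρ σ N (s ×ˢ t) = mu ρ N s * mu σ N t := by
    intro s t
    unfold mm
    exact Measure.prod_prod s t
  rw [← hZ]
  have hgN : 0 < g ^ N := by positivity
  by_cases hsmall : N < max 2 n0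
  · -- the trivial bound
    calc _ ≤ mm ρ σ N Set.univ := measure_mono (Set.subset_univ _)
      _ = ENNReal.ofReal Z := by
        rw [← Set.univ_prod_univ, hmm, (hZN ρ N hρ0).1, (hZN σ N hσ).1, hZ,
          ENNReal.ofReal_mul hZ1.le]
      _ ≤ _ := by
        apply ENNReal.ofReal_le_ofReal
        have h1 : 1 ≤ g ^ (max 2 n0) * g⁻¹ ^ N := by
          rw [inv_pow, ← div_eq_mul_inv, one_le_div hgN]
          exact pow_le_pow_right₀ hg1.le hsmall.le
        have h2 : 0 ≤ (K1 + 2 + C2) * B * g⁻¹ ^ N := by positivity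
        have h3 : 1 ≤ ((K1 + 2 + C2) * B + g ^ (max 2 n0)) * g⁻¹ ^ N := by
          rw [add_mul]
          linarith
        nlinarith
  · rw [not_lt, max_le_iff] at hsmall
    obtain ⟨hN2, hNn⟩ := hsmall
    have hκg : κ ≤ g ^ N := hn0.le.trans (pow_le_pow_right₀ hg1.le hNn)
    have hgN1 : 1 ≤ g ^ N := one_le_pow₀ hg1.le
    obtain ⟨S, hS⟩ : ∃ S, S = (ρ * g ^ 3) ^ N := ⟨_, rfl⟩
    have hS0 : 0 < S := by rw [hS]; positivity
    have hSg : g ^ N ≤ S := by
      rw [hS]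
      apply pow_le_pow_left₀ hg0.le
      have h1 : g ≤ g ^ 3 := by
        calc g = g ^ 1 := (pow_one g).symm
          _ ≤ g ^ 3 := pow_le_pow_right₀ hg1.le (by norm_num)
      nlinarith [pow_pos hg0 3]
    obtain ⟨a, ha⟩ : ∃ a, a = Real.pi * κ * δ ^ 2 / (2 * S) := ⟨_, rfl⟩
    have ha0 : 0 < a := by rw [ha]; positivity
    -- the events
    let A1 : Set (Fin N → ℂ) := {q | ∃ w : ℂ, ‖w‖ ≤ r ∧ ‖(Q q).eval w‖ < (g ^ N)⁻¹}
    let A2 : Set (Fin N → ℂ) := {q | ∃ w : ℂ, ‖w‖ ≤ r ∧ g ^ N < ‖(Q q).eval w‖}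
    let A3 : Set (Fin N → ℂ) := {z | ∃ w : ℂ, ‖w‖ ≤ r ∧ (ρ * g ^ 2) ^ N < ‖(P z).eval w‖}
    let A4 : Set (Fin N → ℂ) := {z | ENNReal.ofReal a ≤
      volume {w : ℂ | ‖w‖ ≤ ρ + 1 ∧ ‖(P z).eval w‖ ≤ 2 * κ * g ^ N}}
    have hsub : {x : (Fin N → ℂ) × (Fin N → ℂ) | ∃ c : ℂ, ‖c‖ ≤ ρ ∧ Crit x.1 x.2 c ∧
        ‖(P x.1).eval c‖ ≤ κ * ‖(Q x.2).eval c‖} ⊆
        ((Set.univ ×ˢ A1) ∪ (Set.univ ×ˢ A2)) ∪ ((A3 ×ˢ Set.univ) ∪ (A4 ×ˢ Set.univ)) := by
      rintro ⟨z, q⟩ ⟨c, hc, hcrit, hPc⟩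
      simp only at hcrit hPc
      by_cases h1 : q ∈ A1
      · exact Or.inl (Or.inl ⟨trivial, h1⟩)
      by_cases h2 : q ∈ A2
      · exact Or.inl (Or.inr ⟨trivial, h2⟩)
      by_cases h3 : z ∈ A3
      · exact Or.inr (Or.inl ⟨h3, trivial⟩)
      refine Or.inr (Or.inr ⟨?_, trivial⟩)
      have h1' : ∀ w : ℂ, ‖w‖ ≤ r → (g ^ N)⁻¹ ≤ ‖(Q q).eval w‖ := by
        intro w hw
        by_contra hcon
        exact h1 ⟨w, hw, not_le.1 hcon⟩
      have h2' : ∀ w : ℂ, ‖w‖ ≤ r → ‖(Q q).eval w‖ ≤ g ^ N := by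
        intro w hw
        by_contra hcon
        exact h2 ⟨w, hw, not_le.1 hcon⟩
      have h3' : ∀ w : ℂ, ‖w‖ ≤ r → ‖(P z).eval w‖ ≤ (ρ * g ^ 2) ^ N := by
        intro w hw
        by_contra hcon
        exact h3 ⟨w, hw, not_le.1 hcon⟩
      have h4 := hSF ρ δ S κ N z q c hρ0 hδ0 (by linarith) (by linarith) hc (by
        intro w hw
        rw [← hr] at hw
        have h5 := h1' w hw
        have h6 : 0 < (g ^ N)⁻¹ := by positivity
        refine ⟨fun h7 => ?_, ?_⟩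
        · rw [h7, norm_zero] at h5
          linarith
        · calc ‖(P z).eval w‖ ≤ (ρ * g ^ 2) ^ N := h3' w hw
            _ = S * (g ^ N)⁻¹ := by
              rw [hS, mul_pow, mul_pow, ← pow_mul, ← pow_mul]
              field_simp
              ring
            _ ≤ S * ‖(Q q).eval w‖ := mul_le_mul_of_nonneg_left h5 hS0.le) hcrit hPc
      rw [← ha] at h4
      refine h4.trans (measure_mono ?_)
      rintro w ⟨hw1, hw2⟩
      refine ⟨by linarith, hw2.trans ?_⟩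
      apply mul_le_mul_of_nonneg_left _ (by linarith)
      exact h2' w (by rw [hr]; exact hw1)
    -- the measures
    have hA1 : mm ρ σ N (Set.univ ×ˢ A1) ≤
        ENNReal.ofReal (K1 * ((N : ℝ) + 1) ^ 2 / (g ^ N) ^ 2 * Z) := by
      rw [hmm, (hZN ρ N hρ0).1]
      calc _ ≤ ENNReal.ofReal (ZN ρ N) * ENNReal.ofReal (K1 * N * ((g ^ N)⁻¹) ^ 2 * ZN σ N) := by
            gcongr
            exact hSQ' N hN _ (by positivity)
        _ = ENNReal.ofReal (K1 * N / (g ^ N) ^ 2 * Z) := by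
          rw [← ENNReal.ofReal_mul hZ1.le]
          congr 1
          rw [hZ]
          field_simp
        _ ≤ _ := by
          apply ENNReal.ofReal_le_ofReal
          gcongr
          nlinarith [Nat.cast_nonneg (α := ℝ) N]
    have hA2 : mm ρ σ N (Set.univ ×ˢ A2) ≤
        ENNReal.ofReal (((N : ℝ) + 1) ^ 2 / (g ^ N) ^ 2 * Z) := by
      rw [hmm, (hZN ρ N hρ0).1]
      calc _ ≤ ENNReal.ofReal (ZN ρ N) *
            ENNReal.ofReal (((N : ℝ) + 1) ^ 2 / (g ^ N) ^ 2 * ZN σ N) := by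
            gcongr
            exact hUQ' N hN _ hgN
        _ = _ := by
          rw [← ENNReal.ofReal_mul hZ1.le]
          congr 1
          rw [hZ]
          ring
    have hA3 : mm ρ σ N (A3 ×ˢ Set.univ) ≤
        ENNReal.ofReal (((N : ℝ) + 1) ^ 2 / (g ^ N) ^ 2 * Z) := by
      rw [hmm, (hZN σ N hσ).1]
      calc _ ≤ ENNReal.ofReal (((N : ℝ) + 1) ^ 2 * r ^ (2 * N) / ((ρ * g ^ 2) ^ N) ^ 2 * ZN ρ N) *
            ENNReal.ofReal (ZN σ N) := by
            gcongr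
            exact hCB ρ r _ N hρ0 (by linarith) (by positivity)
        _ = ENNReal.ofReal (((N : ℝ) + 1) ^ 2 * r ^ (2 * N) / ((ρ * g ^ 2) ^ N) ^ 2 * Z) := by
          rw [← ENNReal.ofReal_mul (by positivity)]
          congr 1
          rw [hZ]
          ring
        _ ≤ ENNReal.ofReal (((N : ℝ) + 1) ^ 2 * (ρ * g) ^ (2 * N) / ((ρ * g ^ 2) ^ N) ^ 2 *
            Z) := by
          apply ENNReal.ofReal_le_ofReal
          gcongr
          rw [hr]
          exact hδ2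
        _ = _ := by
          congr 1
          rw [pow_mul' (ρ * g) 2 N, mul_pow, mul_pow, mul_pow, mul_pow, ← pow_mul g 2 N,
            mul_comm 2 N, pow_mul g N 2]
          field_simp
    have hA4 : mm ρ σ N (A4 ×ˢ Set.univ) ≤
        ENNReal.ofReal (C2 * ((N : ℝ) + 1) ^ 2 / (g ^ N) ^ 2 * Z) := by
      rw [hmm, (hZN σ N hσ).1]
      have h1 := mul_meas_ge_le_lintegral₀ (μ := mu ρ N)
        (meas_area N (ρ + 1) (2 * κ * g ^ N)).aemeasurable (ENNReal.ofReal a)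
      have h2 := hAREA' N hN2 (2 * κ * g ^ N) (by nlinarith)
      have h3 := h1.trans h2
      have h4 : mu ρ N A4 ≤ ENNReal.ofReal (C2 * (N : ℝ) ^ 2 / (g ^ N) ^ 3 * ZN ρ N) := by
        have h5 : ENNReal.ofReal (Ca * (2 * κ * g ^ N) ^ 2 * N ^ 2 / ρ ^ (2 * N) * ZN ρ N) =
            ENNReal.ofReal a * ENNReal.ofReal (C2 * (N : ℝ) ^ 2 / (g ^ N) ^ 3 * ZN ρ N) := by
          rw [← ENNReal.ofReal_mul ha0.le]
          congr 1
          rw [ha, hC2, hS, ← hg8]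
          have e1 : (g ^ 8 * g ^ 3) ^ N = (g ^ N) ^ 11 := by
            rw [← pow_add, ← pow_mul, ← pow_mul]
            congr 1
            ring
          have e2 : (g ^ 8) ^ (2 * N) = (g ^ N) ^ 16 := by
            rw [← pow_mul, ← pow_mul]
            congr 1
            ring
          rw [e1, e2]
          field_simp
          ring
        rw [h5] at h3
        exact (ENNReal.mul_le_mul_iff_right (by simpa using ha0) ENNReal.ofReal_ne_top).1 h3
      calc _ ≤ ENNReal.ofReal (C2 * (N : ℝ) ^ 2 / (g ^ N) ^ 3 * ZN ρ N) *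
            ENNReal.ofReal (ZN σ N) := by gcongr
        _ = ENNReal.ofReal (C2 * (N : ℝ) ^ 2 / (g ^ N) ^ 3 * Z) := by
          rw [← ENNReal.ofReal_mul (by positivity)]
          congr 1
          rw [hZ]
          ring
        _ ≤ _ := by
          apply ENNReal.ofReal_le_ofReal
          gcongr ?_ * Z
          apply div_le_div₀ (by positivity) _ (by positivity)
            (pow_le_pow_right₀ hgN1 (by norm_num))
          gcongr
          linarith
    calc _ ≤ mm ρ σ N (((Set.univ ×ˢ A1) ∪ (Set.univ ×ˢ A2)) ∪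
          ((A3 ×ˢ Set.univ) ∪ (A4 ×ˢ Set.univ))) := measure_mono hsub
      _ ≤ (ENNReal.ofReal (K1 * ((N : ℝ) + 1) ^ 2 / (g ^ N) ^ 2 * Z) +
          ENNReal.ofReal (((N : ℝ) + 1) ^ 2 / (g ^ N) ^ 2 * Z)) +
          (ENNReal.ofReal (((N : ℝ) + 1) ^ 2 / (g ^ N) ^ 2 * Z) +
          ENNReal.ofReal (C2 * ((N : ℝ) + 1) ^ 2 / (g ^ N) ^ 2 * Z)) :=
        (measure_union_le _ _).trans (add_le_add ((measure_union_le _ _).trans
          (add_le_add hA1 hA2)) ((measure_union_le _ _).trans (add_le_add hA3 hA4)))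
      _ = ENNReal.ofReal ((K1 + 2 + C2) * (((N : ℝ) + 1) ^ 2) / (g ^ N) ^ 2 * Z) := by
        rw [← ENNReal.ofReal_add (by positivity) (by positivity),
          ← ENNReal.ofReal_add (by positivity) (by positivity),
          ← ENNReal.ofReal_add (by positivity) (by positivity)]
        congr 1
        ring
      _ ≤ _ := by
        apply ENNReal.ofReal_le_ofReal
        apply mul_le_mul_of_nonneg_right _ hZ0.le
        calc (K1 + 2 + C2) * (((N : ℝ) + 1) ^ 2) / (g ^ N) ^ 2 ≤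
            (K1 + 2 + C2) * (B * g ^ N) / (g ^ N) ^ 2 := by
              gcongr
              exact hB' N
          _ = (K1 + 2 + C2) * B * g⁻¹ ^ N := by
            rw [inv_pow]
            field_simp
          _ ≤ _ := by
            apply mul_le_mul_of_nonneg_right _ (by positivity)
            have : 0 < g ^ (max 2 n0) := by positivity
            linarith

end Pool.Agent.W216.RV
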