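import Pool.Agent.W751.RV.Stm

/-! RV-SF (owner helper751): a small critical value forces a small disc of small values. -/

set_option autoImplicit false

open Polynomial Filter Topology MeasureTheory Metric

namespace Pool.Agent.W216.RV

open Pool.Agent.W751.CD Pool.Agent.W751.CV Pool.Agent.W751.RV

lemma double_zero (g : ℂ[X]) (c : ℂ) (h0 : g.eval c = 0) (h1 : (derivative g).eval c = 0) :
    ∃ h : ℂ[X], ∀ w, g.eval w = (w - c) ^ 2 * h.eval w := by
  obtain ⟨g1, hg1⟩ := dvd_iff_isRoot.mpr (show g.IsRoot c from h0)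
  have h2 : g1.eval c = 0 := by
    rw [hg1] at h1
    simpa using h1
  obtain ⟨g2, hg2⟩ := dvd_iff_isRoot.mpr (show g1.IsRoot c from h2)
  refine ⟨g2, fun w => ?_⟩
  rw [hg1, hg2]
  simp
  ring

theorem sf : S_SF := by
  intro ρ δ S R N z q c hρ hδ hR hRS hc hw hcrit hPc
  have hS : 0 < S := by linarith
  have hQc : (Q q).eval c ≠ 0 := (hw c (by linarith)).1
  obtain ⟨h, hh⟩ := double_zero (P z * C ((Q q).eval c) - C ((P z).eval c) * Q q) c
    (by simp) (by
      unfold Crit at hcrit
      simp only [derivative_sub, derivative_mul, derivative_C, mul_zero, add_zero, zero_mul,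
        zero_add, eval_sub, eval_mul, eval_C]
      rw [hcrit, sub_self])
  have hg : ∀ w, (P z).eval w * (Q q).eval c - (P z).eval c * (Q q).eval w =
      (w - c) ^ 2 * h.eval w := by
    intro w
    rw [← hh w]
    simp
  have hball : ∀ w, ‖w - c‖ ≤ δ → ‖w‖ ≤ ρ + δ := by
    intro w hw1
    calc ‖w‖ = ‖c + (w - c)‖ := by rw [add_sub_cancel]
      _ ≤ ‖c‖ + ‖w - c‖ := norm_add_le _ _
      _ ≤ ρ + δ := by linarith
  have hPS : ∀ w, ‖w - c‖ ≤ δ → ‖(P z).eval w / (Q q).eval w‖ ≤ S := by
    intro w hw1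
    obtain ⟨h1, h2⟩ := hw w (hball w hw1)
    rw [norm_div, div_le_iff₀ (norm_pos_iff.2 h1)]
    exact h2
  have hdiff : ∀ w, ‖w - c‖ ≤ δ → (P z).eval w / (Q q).eval w - (P z).eval c / (Q q).eval c =
      (w - c) ^ 2 * (h.eval w / ((Q q).eval w * (Q q).eval c)) := by
    intro w hw1
    obtain ⟨h1, h2⟩ := hw w (hball w hw1)
    rw [div_sub_div _ _ h1 hQc, ← mul_div_assoc, ← hg w]
    congr 1
    ring
  -- the maximum principle
  have hmax : ∀ w ∈ closedBall c δ, ‖h.eval w / ((Q q).eval w * (Q q).eval c)‖ ≤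
      2 * S / δ ^ 2 := by
    intro w hwc
    rw [← closure_ball c hδ.ne'] at hwc
    refine Complex.norm_le_of_forall_mem_frontier_norm_le
      (f := fun x => h.eval x / ((Q q).eval x * (Q q).eval c))
      isBounded_ball ?_ ?_ hwc
    · apply DifferentiableOn.diffContOnCl
      rw [closure_ball c hδ.ne']
      intro x hx
      rw [mem_closedBall, dist_eq_norm] at hx
      obtain ⟨h1, h2⟩ := hw x (hball x hx)
      exact ((Polynomial.differentiable h).differentiableAt.div
        ((Polynomial.differentiable (Q q)).differentiableAt.mul_const _)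
        (mul_ne_zero h1 hQc)).differentiableWithinAt
    · intro x hx
      rw [frontier_ball c hδ.ne', mem_sphere, dist_eq_norm] at hx
      have h2 : ‖(P z).eval x / (Q q).eval x - (P z).eval c / (Q q).eval c‖ ≤ 2 * S := by
        refine (norm_sub_le _ _).trans ?_
        have h3 := hPS x hx.le
        have h4 := hPS c (by rw [sub_self, norm_zero]; exact hδ.le)
        linarith
      rw [hdiff x hx.le, norm_mul, norm_pow, hx] at h2
      show ‖h.eval x / ((Q q).eval x * (Q q).eval c)‖ ≤ 2 * S / δ ^ 2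
      rw [le_div_iff₀ (by positivity), mul_comm]
      exact h2
  set r : ℝ := Real.sqrt (R * δ ^ 2 / (2 * S)) with hr
  have hr2 : r ^ 2 = R * δ ^ 2 / (2 * S) := Real.sq_sqrt (by positivity)
  have hr0 : 0 ≤ r := Real.sqrt_nonneg _
  have hrN : r ≤ δ := by
    apply le_of_sq_le_sq _ hδ.le
    rw [hr2, div_le_iff₀ (by positivity)]
    nlinarith [sq_nonneg δ]
  have hsub : closedBall c r ⊆
      {w : ℂ | ‖w‖ ≤ ρ + δ ∧ ‖(P z).eval w‖ ≤ 2 * R * ‖(Q q).eval w‖} := by
    intro w hwc
    have h1 : ‖w - c‖ ≤ r := by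
      rw [mem_closedBall, dist_eq_norm] at hwc
      exact hwc
    refine ⟨hball w (h1.trans hrN), ?_⟩
    obtain ⟨h5, h6⟩ := hw w (hball w (h1.trans hrN))
    have h2 := hmax w (by
      rw [mem_closedBall, dist_eq_norm]
      exact h1.trans hrN)
    have h3 : ‖(w - c) ^ 2 * (h.eval w / ((Q q).eval w * (Q q).eval c))‖ ≤ R := by
      rw [norm_mul, norm_pow]
      calc ‖w - c‖ ^ 2 * ‖h.eval w / ((Q q).eval w * (Q q).eval c)‖ ≤
            r ^ 2 * (2 * S / δ ^ 2) := by gcongr
        _ = R := by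
          rw [hr2]
          field_simp
    have h4 : ‖(P z).eval c / (Q q).eval c‖ ≤ R := by
      rw [norm_div, div_le_iff₀ (norm_pos_iff.2 hQc)]
      exact hPc
    have h7 : ‖(P z).eval w / (Q q).eval w‖ ≤ 2 * R := by
      calc ‖(P z).eval w / (Q q).eval w‖ = ‖(P z).eval c / (Q q).eval c +
            (w - c) ^ 2 * (h.eval w / ((Q q).eval w * (Q q).eval c))‖ := by
            rw [← hdiff w (h1.trans hrN), add_sub_cancel]
        _ ≤ ‖(P z).eval c / (Q q).eval c‖ +
            ‖(w - c) ^ 2 * (h.eval w / ((Q q).eval w * (Q q).eval c))‖ := norm_add_le _ _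
        _ ≤ 2 * R := by linarith
    rw [norm_div, div_le_iff₀ (norm_pos_iff.2 h5)] at h7
    exact h7
  calc ENNReal.ofReal (Real.pi * R * δ ^ 2 / (2 * S)) = volume (closedBall c r) := by
        rw [Complex.volume_closedBall, ← ENNReal.ofReal_pow hr0, hr2]
        rw [← ENNReal.ofReal_coe_nnreal, ← ENNReal.ofReal_mul (by positivity)]
        congr 1
        rw [NNReal.coe_real_pi]
        ring
    _ ≤ _ := measure_mono hsub

end Pool.Agent.W216.RV
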