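import Pool.Agent.W751.RV.Stm

/-! RV-UQ (owner helper751): the denominator is not large. -/

set_option autoImplicit false

open Polynomial Filter Topology MeasureTheory Metric

namespace Pool.Agent.W216.RV

open Pool.Agent.W751.CD Pool.Agent.W751.CV Pool.Agent.W751.RV

theorem uq : S_UQ := by
  intro hCB hQE σ r hσ hr hrσ N hN η hη
  obtain ⟨-, hQE2, -, -⟩ := hQE
  have hle : σ ≤ 1 / r := by
    rw [le_div_iff₀ hr, mul_comm]
    exact hrσ
  have h1 := hCB σ (1 / r) (η / r ^ N) N hσ hle (by positivity)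
  have h2 : ((N : ℝ) + 1) ^ 2 * (1 / r) ^ (2 * N) / (η / r ^ N) ^ 2 * ZN σ N =
      ((N : ℝ) + 1) ^ 2 / η ^ 2 * ZN σ N := by
    have e : (1 / r) ^ (2 * N) / (η / r ^ N) ^ 2 = 1 / η ^ 2 := by
      rw [one_div, inv_pow, pow_mul', div_pow]
      field_simp
    rw [mul_div_assoc, e]
    ring
  rw [h2] at h1
  refine (measure_mono ?_).trans h1
  rintro q ⟨w, hw, hw2⟩
  -- the maximum principle
  have h3 : ∃ v : ℂ, ‖v‖ = r ∧ η < ‖(Q q).eval v‖ := by
    by_contra hcon
    push Not at hcon
    have h4 : ‖(Q q).eval w‖ ≤ η := by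
      have hwc : w ∈ closure (ball (0 : ℂ) r) := by
        rw [closure_ball (0 : ℂ) hr.ne', mem_closedBall, dist_zero_right]
        exact hw
      refine Complex.norm_le_of_forall_mem_frontier_norm_le (f := fun x => (Q q).eval x)
        isBounded_ball (Polynomial.differentiable (Q q)).diffContOnCl ?_ hwc
      intro x hx
      rw [frontier_ball (0 : ℂ) hr.ne', mem_sphere, dist_zero_right] at hx
      exact hcon x hx
    linarith
  obtain ⟨v, hv, hv2⟩ := h3
  have hv0 : v ≠ 0 := by
    intro h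
    rw [h, norm_zero] at hv
    linarith
  refine ⟨v⁻¹, ?_, ?_⟩
  · rw [norm_inv, hv, one_div]
  · rw [hQE2 N q v hv0, norm_mul, norm_pow, hv] at hv2
    rw [div_lt_iff₀ (by positivity), mul_comm]
    exact hv2

end Pool.Agent.W216.RV
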